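import Mathlib

/-!
# The algebra behind the hand-in `MP_5c0b30_ag.LowDegreesDecide`
-/

set_option autoImplicit false

open Finset Polynomial

namespace Pool.Agent.Helper75.OC

section ring
variable {R : Type} [CommRing R]

/-- additive map `tau` and multiplicative `dual` with positivity imply reducedness -/
theorem reduced_of (dual : R →+* R) (tau : R →+ ℤ) (hdd : ∀ x, dual (dual x) = x)
    (hpos : ∀ x, x ≠ 0 → 0 < tau (x * dual x)) {x : R} (hx : x * x = 0) : x = 0 := by
  have key : ∀ y : R, tau (y * dual y) = 0 → y = 0 := by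
    intro y hy
    by_contra h
    exact absurd (hpos y h) (by rw [hy]; exact lt_irrefl _)
  have h1 : x * dual x = 0 := by
    apply key
    rw [dual.map_mul, hdd]
    have : x * dual x * (dual x * x) = (x * x) * (dual x * dual x) := by ring
    rw [this, hx, zero_mul, map_zero]
  exact key x (by rw [h1, map_zero])

theorem torsion_of (dual : R →+* R) (tau : R →+ ℤ)
    (hpos : ∀ x, x ≠ 0 → 0 < tau (x * dual x)) {n : ℤ} (hn : n ≠ 0) {x : R} (hx : n • x = 0) :
    x = 0 := by
  by_contra h
  have h1 := hpos x h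
  have h2 : tau (n • (x * dual x)) = 0 := by
    rw [← smul_mul_assoc, hx, zero_mul, map_zero]
  rw [map_zsmul, smul_eq_mul] at h2
  rcases mul_eq_zero.1 h2 with h3 | h3
  · exact hn h3
  · omega

/-- the linear form on polynomials -/
noncomputable def form (L : R) (d : ℕ) (c : ℕ → ℤ) (Q : R[X]) : R :=
  ∑ j ∈ range (d + 1), c j • (L ^ (d - j) * Q.coeff (2 * j))

theorem form_add (L : R) (d : ℕ) (c : ℕ → ℤ) (P Q : R[X]) :
    form L d c (P + Q) = form L d c P + form L d c Q := by
  unfold form
  rw [← sum_add_distrib]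
  refine sum_congr rfl fun j _ => ?_
  rw [coeff_add, mul_add, smul_add]

theorem form_sub (L : R) (d : ℕ) (c : ℕ → ℤ) (P Q : R[X]) :
    form L d c (P - Q) = form L d c P - form L d c Q := by
  unfold form
  rw [← sum_sub_distrib]
  refine sum_congr rfl fun j _ => ?_
  rw [coeff_sub, mul_sub, smul_sub]

/-- the polynomial of the projective space of dimension `a - 1` -/
noncomputable def geo (L : R) (a : ℕ) : R[X] := ∑ j ∈ range a, (C L * X ^ 2) ^ j

theorem geo_succ (L : R) (a : ℕ) : geo L (a + 1) = geo L a + (C L * X ^ 2) ^ a := by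
  unfold geo
  rw [sum_range_succ]

theorem geo_mul (L : R) (a : ℕ) : geo L a * (1 - C L * X ^ 2) = 1 - (C L * X ^ 2) ^ a := by
  unfold geo
  have := geom_sum_mul (C L * X ^ 2 : R[X]) a
  linear_combination -this

theorem ident (L : R) (a b : ℕ) :
    (C L * X ^ 2 : R[X]) ^ a + (C L * X ^ 2) ^ b =
      2 * (geo L (a + 1) * geo L (b + 1)) - geo L a * geo L (b + 2) - geo L (a + 2) * geo L b := by
  have h1 := geo_mul L a
  have h2 := geo_mul L b
  rw [geo_succ, geo_succ, geo_succ (a := a + 1), geo_succ (a := b + 1), geo_succ, geo_succ]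
  set x : R[X] := C L * X ^ 2
  rw [pow_succ x a, pow_succ x b]
  linear_combination (-x ^ b) * h1 - x ^ a * h2

theorem form_shift (L : R) (n d : ℕ) (c : ℕ → ℤ) (P : R[X]) (hP : ∀ i, n < i → P.coeff (2 * i) = 0)
    (a : ℕ) (ha : a + n ≤ d) :
    form L d c (P * (C L * X ^ 2) ^ a) =
      ∑ i ∈ range (n + 1), c (i + a) • (L ^ (d - i) * P.coeff (2 * i)) := by
  have h1 : ∀ j, (P * (C L * X ^ 2) ^ a).coeff (2 * j) =
      if a ≤ j then L ^ a * P.coeff (2 * (j - a)) else 0 := by
    intro j
    rw [mul_pow, ← C_pow, ← pow_mul, ← mul_assoc, mul_comm P (C _), mul_assoc, coeff_C_mul,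
      coeff_mul_X_pow']
    by_cases h : a ≤ j
    · rw [if_pos (by omega), if_pos h]
      congr 2
      omega
    · rw [if_neg (by omega), if_neg h, mul_zero]
  unfold form
  have h2 : ∑ j ∈ range (d + 1), c j • (L ^ (d - j) * (P * (C L * X ^ 2) ^ a).coeff (2 * j)) =
      ∑ i ∈ range (d + 1 - a), c (a + i) • (L ^ (d - i) * P.coeff (2 * i)) := by
    obtain ⟨k, hk⟩ : ∃ k, d + 1 = a + k := ⟨d + 1 - a, by omega⟩
    rw [hk, sum_range_add, Nat.add_sub_cancel_left]
    have h3 : ∑ x ∈ range a, c x • (L ^ (d - x) * (P * (C L * X ^ 2) ^ a).coeff (2 * x)) = 0 := by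
      refine sum_eq_zero fun j hj => ?_
      rw [h1, if_neg (by have := mem_range.1 hj; omega), mul_zero, smul_zero]
    rw [h3, zero_add]
    refine sum_congr rfl fun i hi => ?_
    have hi' := mem_range.1 hi
    rw [h1, if_pos (by omega), ← mul_assoc, ← pow_add]
    congr 3
    · omega
    · congr 1
      omega
  rw [h2]
  obtain ⟨k, hk⟩ : ∃ k, d + 1 - a = n + 1 + k := ⟨d + 1 - a - (n + 1), by omega⟩
  rw [hk, sum_range_add]
  have h4 : ∑ x ∈ range k, c (a + (n + 1 + x)) • (L ^ (d - (n + 1 + x)) * P.coeff (2 * (n + 1 + x)))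
      = 0 := by
    refine sum_eq_zero fun j _ => ?_
    rw [hP _ (by omega), mul_zero, smul_zero]
  rw [h4, add_zero]
  refine sum_congr rfl fun i _ => ?_
  rw [add_comm a i]

/-- the triangular system -/
theorem triangular (tf : ∀ (k : ℤ) (x : R), k ≠ 0 → k • x = 0 → x = 0) (n d : ℕ) (hn : n + n ≤ d)
    (c : ℕ → ℤ) (hbox : ∀ j, c j ≠ 0 → n ≤ j ∧ j + n ≤ d) (hc : ∃ j ≤ d, c j + c (d - j) ≠ 0)
    (D : ℕ → R) (hsym : ∀ i ≤ n, D (n - i) = D i)
    (hrel : ∀ a b, a + b = d - n → ∑ i ∈ range (n + 1), (c (i + a) + c (i + b)) • D i = 0) :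
    ∀ r ≤ n, D r = 0 := by
  -- the symmetric relation
  have h1 : ∀ a, a ≤ d - n → ∑ i ∈ range (n + 1), (c (i + a) + c (d - (i + a))) • D i = 0 := by
    intro a ha
    have h2 := hrel a (d - n - a) (by omega)
    simp only [add_smul, sum_add_distrib] at h2 ⊢
    rw [← h2]
    congr 1
    rw [← sum_range_reflect]
    refine sum_congr rfl fun i hi => ?_
    have hi' := mem_range.1 hi
    have e1 : n + 1 - 1 - i = n - i := by omega
    rw [e1, hsym i (by omega)]
    congr 2
    omega
  -- the largest index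
  obtain ⟨j₁, hj₁, hj₁c⟩ := hc
  let S : Finset ℕ := (range (d + 1)).filter fun j => c j + c (d - j) ≠ 0
  have hS : S.Nonempty := ⟨j₁, by simp only [S, mem_filter, mem_range]; exact ⟨by omega, hj₁c⟩⟩
  obtain ⟨j₀, hj₀, hmax⟩ : ∃ j₀ ∈ S, ∀ j ∈ S, j ≤ j₀ := ⟨S.max' hS, S.max'_mem hS, fun j hj => S.le_max' j hj⟩
  simp only [S, mem_filter, mem_range] at hj₀ hmax
  have hb : n ≤ j₀ ∧ j₀ + n ≤ d := by
    by_cases h : c j₀ ≠ 0
    · exact hbox _ h
    · push Not at h
      have h3 : c (d - j₀) ≠ 0 := by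
        intro h4
        exact hj₀.2 (by rw [h, h4]; rfl)
      have := hbox _ h3
      omega
  intro r
  induction r using Nat.strong_induction_on with
  | _ r ih =>
    intro hr
    have h2 := h1 (j₀ - r) (by omega)
    rw [sum_eq_single_of_mem r (mem_range.2 (by omega))] at h2
    · have e1 : r + (j₀ - r) = j₀ := by omega
      rw [e1] at h2
      exact tf _ _ hj₀.2 h2
    · intro i hi hir
      have hi' := mem_range.1 hi
      rcases lt_or_gt_of_ne hir with h | h
      · rw [ih i h (by omega), smul_zero]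
      · have h3 : c (i + (j₀ - r)) + c (d - (i + (j₀ - r))) = 0 := by
          by_contra h4
          have := hmax (i + (j₀ - r)) ⟨by omega, h4⟩
          omega
        rw [h3, zero_smul]

/-- Step A: the even coefficients vanish. -/
theorem even_part (L : R) (hL : IsUnit L) (tf : ∀ (k : ℤ) (x : R), k ≠ 0 → k • x = 0 → x = 0)
    (n d : ℕ) (hn : n + n ≤ d) (c : ℕ → ℤ) (hbox : ∀ j, c j ≠ 0 → n ≤ j ∧ j + n ≤ d)
    (hc : ∃ j ≤ d, c j + c (d - j) ≠ 0) (P : R[X]) (hP : ∀ i, 2 * n < i → P.coeff i = 0)
    (hdual : ∀ i ≤ n, P.coeff (2 * n - i) = L ^ (n - i) * P.coeff i)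
    (hrel : ∀ a b, a + b = d - n → form L d c (P * (geo L (a + 1) * geo L (b + 1))) = 0) :
    ∀ r, P.coeff (2 * r) = 0 := by
  have hrel' : ∀ a b, a + b = d - n →
      form L d c (P * ((C L * X ^ 2) ^ a + (C L * X ^ 2) ^ b)) = 0 := by
    intro a b hab
    rw [ident]
    have e : P * (2 * (geo L (a + 1) * geo L (b + 1)) - geo L a * geo L (b + 2) -
        geo L (a + 2) * geo L b) =
        P * (geo L (a + 1) * geo L (b + 1)) + P * (geo L (a + 1) * geo L (b + 1)) -
          P * (geo L a * geo L (b + 2)) - P * (geo L (a + 2) * geo L b) := by ring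
    rw [e, form_sub, form_sub, form_add, hrel a b hab]
    have h1 : form L d c (P * (geo L a * geo L (b + 2))) = 0 := by
      rcases Nat.eq_zero_or_pos a with h | h
      · subst h
        have : geo L 0 = (0 : R[X]) := by unfold geo; simp
        rw [this, zero_mul, mul_zero]
        unfold form
        simp
      · have := hrel (a - 1) (b + 1) (by omega)
        rwa [Nat.sub_add_cancel h] at this
    have h2 : form L d c (P * (geo L (a + 2) * geo L b)) = 0 := by
      rcases Nat.eq_zero_or_pos b with h | h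
      · subst h
        have : geo L 0 = (0 : R[X]) := by unfold geo; simp
        rw [this, mul_zero, mul_zero]
        unfold form
        simp
      · have := hrel (a + 1) (b - 1) (by omega)
        rwa [Nat.sub_add_cancel h] at this
    rw [h1, h2]
    simp
  let D : ℕ → R := fun i => L ^ (d - i) * P.coeff (2 * i)
  have hsym' : ∀ i, 2 * i ≤ n → D (n - i) = D i := by
    intro i hi
    show L ^ (d - (n - i)) * P.coeff (2 * (n - i)) = L ^ (d - i) * P.coeff (2 * i)
    have e : 2 * (n - i) = 2 * n - 2 * i := by omega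
    rw [e, hdual (2 * i) hi, ← mul_assoc, ← pow_add]
    congr 2
    omega
  have hsym : ∀ i ≤ n, D (n - i) = D i := by
    intro i hi
    rcases Nat.lt_or_ge n (2 * i) with h | h
    · have := hsym' (n - i) (by omega)
      rw [← this]
      congr 1
      omega
    · exact hsym' i h
  have h3 : ∀ r ≤ n, D r = 0 := by
    refine triangular tf n d hn c hbox hc D hsym fun a b hab => ?_
    have h4 := hrel' a b hab
    rw [mul_add, form_add, form_shift L n d c P (fun i hi => hP _ (by omega)) a (by omega),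
      form_shift L n d c P (fun i hi => hP _ (by omega)) b (by omega), ← sum_add_distrib] at h4
    rw [← h4]
    refine sum_congr rfl fun i _ => ?_
    rw [add_smul]
  intro r
  rcases Nat.lt_or_ge n r with h | h
  · exact hP _ (by omega)
  · have h5 := h3 r h
    exact (hL.pow (d - r)).mul_right_eq_zero.1 h5

/-- Step B: a polynomial whose even coefficients vanish and whose square has vanishing even
coefficients is zero. -/
theorem zero_of (red : ∀ x : R, x * x = 0 → x = 0) (P : R[X]) (h1 : ∀ r, P.coeff (2 * r) = 0)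
    (h2 : ∀ r, (P * P).coeff (2 * r) = 0) : P = 0 := by
  have h3 : P * P = 0 := by
    ext k
    rw [coeff_zero]
    rcases Nat.even_or_odd' k with ⟨m, hm | hm⟩
    · rw [hm]
      exact h2 m
    · rw [hm, coeff_mul]
      refine sum_eq_zero fun p hp => ?_
      have hp' := mem_antidiagonal.1 hp
      rcases Nat.even_or_odd' p.1 with ⟨u, hu | hu⟩
      · rw [hu, h1, zero_mul]
      · have : p.2 = 2 * (m - u) := by omega
        rw [this, h1, mul_zero]
  have h4 : P.leadingCoeff * P.leadingCoeff = 0 := by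
    have h5 := coeff_mul_degree_add_degree P P
    rw [h3, coeff_zero] at h5
    exact h5.symm
  exact leadingCoeff_eq_zero.1 (red _ h4)

end ring

end Pool.Agent.Helper75.OC
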