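import Mathlib
import Pool.Agent.Helper75.OC.Core

/-!
# The algebra behind the hand-in `MP_5c0b30_ag.LowRanksDecide`, ranks
-/

set_option autoImplicit false

open Finset Polynomial

namespace Pool.Agent.Helper75.OC

variable {R : Type} [CommRing R]

theorem pow_cancel (L Linv : R) (hL : L * Linv = 1) (d i : ℕ) (hi : i ≤ d) (x : R) :
    Linv ^ d * (L ^ (d - i) * x) = Linv ^ i * x := by
  obtain ⟨k, rfl⟩ : ∃ k, d = i + k := ⟨d - i, by omega⟩
  have e : i + k - i = k := by omega
  rw [e, pow_add]
  have h : L ^ k * Linv ^ k = 1 := by rw [← mul_pow, hL, one_pow]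
  linear_combination (Linv ^ i * x) * h

/-- The ranks agree in every codimension. -/
theorem even_rank (L Linv : R) (hL : L * Linv = 1) (tau : R →+ ℤ)
    (n d : ℕ) (hn : n + n ≤ d) (c : ℕ → ℤ) (hbox : ∀ j, c j ≠ 0 → n ≤ j ∧ j + n ≤ d)
    (hc : ∃ j ≤ d, c j + c (d - j) ≠ 0) (P : R[X]) (hP : ∀ i, 2 * n < i → P.coeff i = 0)
    (hdual : ∀ i ≤ n, P.coeff (2 * n - i) = L ^ (n - i) * P.coeff i)
    (hrel : ∀ a b, a + b = d - n →
      tau (Linv ^ d * form L d c (P * (geo L (a + 1) * geo L (b + 1)))) = 0) :
    ∀ r ≤ n, tau (Linv ^ r * P.coeff (2 * r)) = 0 := by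
  have hrel' : ∀ a b, a + b = d - n →
      tau (Linv ^ d * form L d c (P * ((C L * X ^ 2) ^ a + (C L * X ^ 2) ^ b))) = 0 := by
    intro a b hab
    rw [ident]
    have e : P * (2 * (geo L (a + 1) * geo L (b + 1)) - geo L a * geo L (b + 2) -
        geo L (a + 2) * geo L b) =
        P * (geo L (a + 1) * geo L (b + 1)) + P * (geo L (a + 1) * geo L (b + 1)) -
          P * (geo L a * geo L (b + 2)) - P * (geo L (a + 2) * geo L b) := by ring
    have h1 : tau (Linv ^ d * form L d c (P * (geo L a * geo L (b + 2)))) = 0 := by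
      rcases Nat.eq_zero_or_pos a with h | h
      · subst h
        have : geo L 0 = (0 : R[X]) := by unfold geo; simp
        rw [this, zero_mul, mul_zero]
        unfold form
        simp
      · have := hrel (a - 1) (b + 1) (by omega)
        rwa [Nat.sub_add_cancel h] at this
    have h2 : tau (Linv ^ d * form L d c (P * (geo L (a + 2) * geo L b))) = 0 := by
      rcases Nat.eq_zero_or_pos b with h | h
      · subst h
        have : geo L 0 = (0 : R[X]) := by unfold geo; simp
        rw [this, mul_zero, mul_zero]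
        unfold form
        simp
      · have := hrel (a + 1) (b - 1) (by omega)
        rwa [Nat.sub_add_cancel h] at this
    rw [e, form_sub, form_sub, form_add, mul_sub, mul_sub, mul_add, map_sub, map_sub, map_add,
      hrel a b hab, h1, h2]
    rfl
  let D : ℕ → ℤ := fun i => tau (Linv ^ i * P.coeff (2 * i))
  have hsym' : ∀ i, 2 * i ≤ n → D (n - i) = D i := by
    intro i hi
    show tau (Linv ^ (n - i) * P.coeff (2 * (n - i))) = tau (Linv ^ i * P.coeff (2 * i))
    have e : 2 * (n - i) = 2 * n - 2 * i := by omega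
    have e2 : n - 2 * i = (n - i) - i := by omega
    rw [e, hdual (2 * i) hi, e2, pow_cancel L Linv hL (n - i) i (by omega)]
  have hsym : ∀ i ≤ n, D (n - i) = D i := by
    intro i hi
    rcases Nat.lt_or_ge n (2 * i) with h | h
    · have := hsym' (n - i) (by omega)
      rw [← this]
      congr 1
      omega
    · exact hsym' i h
  have key : ∀ a, a + n ≤ d → tau (Linv ^ d * form L d c (P * (C L * X ^ 2) ^ a)) =
      ∑ i ∈ range (n + 1), c (i + a) • D i := by
    intro a ha
    rw [form_shift L n d c P (fun i hi => hP _ (by omega)) a ha, mul_sum, map_sum]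
    refine sum_congr rfl fun i hi => ?_
    have hi' := mem_range.1 hi
    rw [mul_smul_comm, map_zsmul, pow_cancel L Linv hL d i (by omega)]
  exact triangular (R := ℤ) (fun k x hk hx => by
      rcases mul_eq_zero.1 (by simpa using hx : k * x = 0) with h | h
      · exact absurd h hk
      · exact h) n d hn c hbox hc D hsym fun a b hab => by
    have h4 := hrel' a b hab
    rw [mul_add, form_add, mul_add, map_add, key a (by omega), key b (by omega),
      ← sum_add_distrib] at h4
    rw [← h4]
    refine sum_congr rfl fun i _ => ?_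
    rw [add_smul]

/-- A polynomial with Poincare duality whose square has middle rank zero vanishes. -/
theorem zero_of_middle (L Linv : R) (hL : L * Linv = 1) (dual : R →+* R) (tau : R →+ ℤ)
    (hpos : ∀ x, x ≠ 0 → 0 < tau (x * dual x)) (m : ℕ) (P : R[X])
    (hP : ∀ i, 2 * m < i → P.coeff i = 0)
    (hdual : ∀ i ≤ 2 * m, P.coeff (2 * m - i) = L ^ m * dual (P.coeff i))
    (h0 : tau (Linv ^ m * (P * P).coeff (2 * m)) = 0) : P = 0 := by
  have hnn : ∀ x, 0 ≤ tau (x * dual x) := by
    intro x
    by_cases h : x = 0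
    · rw [h, zero_mul, map_zero]
    · exact (hpos x h).le
  have h1 : tau (Linv ^ m * (P * P).coeff (2 * m)) =
      ∑ p ∈ antidiagonal (2 * m), tau (P.coeff p.1 * dual (P.coeff p.1)) := by
    rw [coeff_mul, mul_sum, map_sum]
    refine sum_congr rfl fun p hp => ?_
    have hp' := mem_antidiagonal.1 hp
    have e : p.2 = 2 * m - p.1 := by omega
    rw [e, hdual p.1 (by omega)]
    congr 1
    have h : L ^ m * Linv ^ m = 1 := by rw [← mul_pow, hL, one_pow]
    linear_combination (P.coeff p.1 * dual (P.coeff p.1)) * h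
  rw [h1] at h0
  have h2 := (sum_eq_zero_iff_of_nonneg fun p _ => hnn (P.coeff p.1)).1 h0
  ext i
  rw [coeff_zero]
  rcases Nat.lt_or_ge (2 * m) i with h | h
  · exact hP i h
  · have h3 := h2 (i, 2 * m - i) (mem_antidiagonal.2 (by show i + (2 * m - i) = 2 * m; omega))
    by_contra h4
    exact absurd (hpos _ h4) (by rw [h3]; exact lt_irrefl _)

end Pool.Agent.Helper75.OC
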